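import Pool.Agent.Q169.Kh.Exists

/-!
# The minimal gap of the Khovanov Laplacian of the twisted unknot diagrams

All objects (generators, degrees, differential, Laplacian, blocks, gaps) are defined in
`Pool.Agent.Q169.Kh.Defs`.
-/

namespace Pool.Agent.Results.MP_ba01d8_gt.TwistedUnknotGap

open Q169.Kh

/-- For every `n ≥ 1` the gap of the block `L_(0,3-n)(TU_n)` is `2 - 2 cos (π / (n + 2))`, and
every nonzero block `L_(k,j)(TU_n)` has a gap which is at least this number. -/
theorem result (n : ℕ) (hn : 1 ≤ n) :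
    IsGap n 0 (3 - n) (2 - 2 * Real.cos (Real.pi / (n + 2))) ∧
      ∀ (k : ℕ) (j : ℤ), khBlock n k j ≠ 0 →
        ∃ g : ℝ, IsGap n k j g ∧ 2 - 2 * Real.cos (Real.pi / (n + 2)) ≤ g := by
  refine ⟨⟨⟨?_, eigen_block n hn⟩, ?_⟩, ?_⟩
  · have h1 : Real.cos (Real.pi / (n + 2)) < Real.cos 0 := by
      apply Real.cos_lt_cos_of_nonneg_of_le_pi le_rfl
      · rw [div_le_iff₀ (by positivity)]
        have : (0 : ℝ) ≤ n := Nat.cast_nonneg n
        nlinarith [Real.pi_pos]
      · positivity
    rw [Real.cos_zero] at h1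
    linarith
  · rintro μ ⟨h1, h2⟩
    exact lower_all n 0 (3 - n) μ h1 h2
  · intro k j h
    classical
    obtain ⟨g, hg⟩ := exists_least (khBlock n k j) (khBlock_symm n k j) h
    exact ⟨g, hg, lower_all n k j g hg.1.1 hg.1.2⟩

end Pool.Agent.Results.MP_ba01d8_gt.TwistedUnknotGap
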